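import Pool.Agent.Helper91.IP.Defs

/-!
# Piece IP-C1: the one body estimate
-/

namespace Pool.Agent.Helper74.IP

open Finset Equiv Matrix
open Pool.Agent.Helper91.IP

variable {V : Type} [Fintype V] [DecidableEq V]

/-- value of `f` when the label `i` is moved to `y` -/
private def hh (f : Perm V → ℝ) (E : Finset V) (i : V) (s : Perm V) (y : V) : ℝ :=
  if y ∈ E.image s then 0 else f (swap (s i) y * s)

omit [Fintype V] in
private theorem hh_congr {S : Finset V} {f : Perm V → ℝ} (hf : f ∈ Fs S) {i : V}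
    {s s' : Perm V} (h : ∀ k ∈ S.erase i, s k = s' k) (y : V) :
    hh f (S.erase i) i s y = hh f (S.erase i) i s' y := by
  have himg : (S.erase i).image s = (S.erase i).image s' := Finset.image_congr (fun k hk => h k hk)
  unfold hh
  rw [himg]
  split_ifs with hy
  · rfl
  · apply hf
    intro k hk
    by_cases hki : k = i
    · subst hki; simp
    · have hkE : k ∈ S.erase i := mem_erase.2 ⟨hki, hk⟩
      have h1 : s' k ≠ y := fun e => hy (mem_image.2 ⟨k, hkE, e⟩)
      have h2 : s k ≠ y := fun e => h1 (by rw [← h k hkE]; exact e)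
      simp only [Perm.coe_mul, Function.comp_apply]
      rw [swap_apply_of_ne_of_ne (fun e => hki (s.injective e)) h2,
        swap_apply_of_ne_of_ne (fun e => hki (s'.injective e)) h1, h k hkE]

private theorem avg {E : Finset V} {i : V} (hi : i ∉ E) (Ψ : Perm V → V → ℝ)
    (h1 : ∀ s s' : Perm V, (∀ k ∈ E, s k = s' k) → ∀ x, Ψ s x = Ψ s' x)
    (h0 : ∀ s : Perm V, ∀ k ∈ E, Ψ s (s k) = 0) :
    ∑ s : Perm V, ∑ x, Ψ s x = (Eᶜ.card : ℝ) * ∑ s : Perm V, Ψ s (s i) := by
  have hs : ∀ s : Perm V, ∑ x, Ψ s x = ∑ l ∈ Eᶜ, Ψ s (s l) := by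
    intro s
    rw [← Equiv.sum_comp s (fun x => Ψ s x), ← Finset.sum_add_sum_compl E,
      Finset.sum_eq_zero (fun k hk => h0 s k hk), zero_add]
  simp_rw [hs]
  rw [Finset.sum_comm]
  have hl : ∀ l ∈ Eᶜ, ∑ s : Perm V, Ψ s (s l) = ∑ s : Perm V, Ψ s (s i) := by
    intro l hl
    have hlE : l ∉ E := by simpa using hl
    rw [← Equiv.sum_comp (Equiv.mulRight (swap i l)) (fun s => Ψ s (s l))]
    refine Finset.sum_congr rfl fun s _ => ?_
    simp only [Equiv.coe_mulRight, Perm.coe_mul, Function.comp_apply, swap_apply_right]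
    apply h1
    intro k hk
    have hki : k ≠ i := fun e => hi (e ▸ hk)
    have hkl : k ≠ l := fun e => hlE (e ▸ hk)
    simp only [Perm.coe_mul, Function.comp_apply]
    rw [swap_apply_of_ne_of_ne hki hkl]
  rw [Finset.sum_congr rfl hl, Finset.sum_const, nsmul_eq_mul]

/-- the estimate for one label -/
private theorem one_body {Q : V → V → ℝ} {ε : ℝ} (hQ : Smooth Q ε) {S : Finset V}
    {f : Perm V → ℝ} (hf : f ∈ Fs S) {i : V} (hi : i ∈ S) (ho : Orth f (Fs (S.erase i))) :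
    ∑ l ∈ Sᶜ, ∑ s : Perm V, Q (s i) (s l) * (f s * f (s * swap i l)) ≤ ε * nsq f := by
  set E := S.erase i with hE
  have hiE : i ∉ E := by simp [hE]
  set h := hh f E i with hh'
  have hcong : ∀ s s' : Perm V, (∀ k ∈ E, s k = s' k) → ∀ x, h s x = h s' x :=
    fun s s' hs x => hh_congr hf hs x
  have h0 : ∀ s : Perm V, ∀ k ∈ E, h s (s k) = 0 := by
    intro s k hk
    simp only [hh', hh]
    rw [if_pos (mem_image_of_mem _ hk)]
  have hval : ∀ s : Perm V, ∀ l, l ∉ E → h s (s l) = f (s * swap i l) := by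
    intro s l hl
    simp only [hh', hh]
    rw [if_neg]
    · congr 1
      rw [Equiv.mul_swap_eq_swap_mul]
    · intro hc
      obtain ⟨k, hk, hkl⟩ := mem_image.1 hc
      exact hl (s.injective hkl ▸ hk)
  have hself : ∀ s : Perm V, h s (s i) = f s := by
    intro s
    rw [hval s i hiE, swap_self]
    rfl
  have hN : 0 < (Eᶜ.card : ℝ) := by
    have : i ∈ Eᶜ := by simp [hiE]
    exact_mod_cast Finset.card_pos.2 ⟨i, this⟩
  -- mean zero
  have hG : ∀ s : Perm V, ∑ x, h s x = 0 := by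
    set G : Perm V → ℝ := fun s => ∑ x, h s x with hGdef
    have hGF : G ∈ Fs E := by
      intro s s' hs
      exact Finset.sum_congr rfl fun x _ => hcong s s' hs x
    have h1 := ho G hGF
    have h2 := avg hiE (fun s x => h s x * G s)
      (fun s s' hs x => by rw [hcong s s' hs x, hGF s s' hs])
      (fun s k hk => by rw [h0 s k hk, zero_mul])
    simp only [hself] at h2
    rw [h1, mul_zero] at h2
    have h3 : ∑ s : Perm V, G s * G s = 0 := by
      rw [← h2]
      refine Finset.sum_congr rfl fun s _ => ?_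
      rw [← Finset.sum_mul]
    have h4 := (Finset.sum_eq_zero_iff_of_nonneg (fun s _ => mul_self_nonneg (G s))).1 h3
    intro s
    exact mul_self_eq_zero.1 (h4 s (mem_univ s))
  -- quadratic form
  have hq := avg hiE (fun s x => h s x * ∑ y, Q x y * h s y)
      (fun s s' hs x => by
        rw [hcong s s' hs x]
        congr 1
        exact Finset.sum_congr rfl fun y _ => by rw [hcong s s' hs y])
      (fun s k hk => by rw [h0 s k hk, zero_mul])
  have hn := avg hiE (fun s x => h s x ^ 2)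
      (fun s s' hs x => by rw [hcong s s' hs x])
      (fun s k hk => by rw [h0 s k hk]; ring)
  simp only [hself] at hq hn
  have hle : ∑ s : Perm V, ∑ x, h s x * ∑ y, Q x y * h s y ≤
      ε * ∑ s : Perm V, ∑ x, h s x ^ 2 := by
    rw [Finset.mul_sum]
    refine Finset.sum_le_sum fun s _ => ?_
    have := hQ.small (h s) (hG s)
    refine le_trans (le_of_eq ?_) this
    refine Finset.sum_congr rfl fun x _ => ?_
    rw [Finset.mul_sum]
    exact Finset.sum_congr rfl fun y _ => by ring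
  rw [hq, hn] at hle
  have hle2 : ∑ s : Perm V, f s * ∑ y, Q (s i) y * h s y ≤ ε * nsq f := by
    have h5 : (Eᶜ.card : ℝ) * ∑ s : Perm V, f s * ∑ y, Q (s i) y * h s y ≤
        (Eᶜ.card : ℝ) * (ε * nsq f) := by
      refine hle.trans (le_of_eq ?_)
      unfold nsq
      ring
    exact le_of_mul_le_mul_left h5 hN
  refine le_trans ?_ hle2
  rw [Finset.sum_comm]
  refine Finset.sum_le_sum fun s _ => ?_
  have hsplit : ∑ y, Q (s i) y * h s y = ∑ l ∈ Eᶜ, Q (s i) (s l) * h s (s l) := by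
    rw [← Equiv.sum_comp s (fun y => Q (s i) y * h s y), ← Finset.sum_add_sum_compl E,
      Finset.sum_eq_zero (fun k hk => by rw [h0 s k hk, mul_zero]), zero_add]
  have hEc : Eᶜ = insert i Sᶜ := by
    ext k
    simp only [hE, mem_compl, mem_erase, mem_insert]
    tauto
  rw [hsplit, hEc, Finset.sum_insert (by simp [hi]), hself]
  have hSc : ∑ l ∈ Sᶜ, Q (s i) (s l) * h s (s l) = ∑ l ∈ Sᶜ, Q (s i) (s l) * f (s * swap i l) := by
    refine Finset.sum_congr rfl fun l hl => ?_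
    rw [hval s l]
    intro hlE
    exact (mem_compl.1 hl) (mem_of_mem_erase hlE)
  rw [hSc, mul_add, Finset.mul_sum]
  have hnn : 0 ≤ f s * (Q (s i) (s i) * f s) := by
    have : f s * (Q (s i) (s i) * f s) = Q (s i) (s i) * (f s * f s) := by ring
    rw [this]
    exact mul_nonneg (hQ.nonneg _ _) (mul_self_nonneg _)
  have heq : ∑ l ∈ Sᶜ, Q (s i) (s l) * (f s * f (s * swap i l)) =
      ∑ l ∈ Sᶜ, f s * (Q (s i) (s l) * f (s * swap i l)) :=
    Finset.sum_congr rfl fun l _ => by ring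
  rw [heq]
  linarith

/-- the diagonal estimate -/
private theorem diag {Q : V → V → ℝ} {ε : ℝ} (hQ : Smooth Q ε) (hV : 0 < Fintype.card V)
    (S : Finset V) (s : Perm V) :
    (S.card : ℝ) * (1 - (S.card : ℝ) / Fintype.card V) * (1 - ε) ≤
      ∑ i ∈ S, ∑ l ∈ Sᶜ, Q (s i) (s l) := by
  set n : ℝ := (Fintype.card V : ℝ) with hn
  have hn0 : n ≠ 0 := by
    have : (0 : ℝ) < n := by rw [hn]; exact_mod_cast hV
    exact this.ne'
  set c : ℝ := (S.card : ℝ) / n with hc
  have hcn : c * n = (S.card : ℝ) := by rw [hc]; field_simp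
  set v : V → ℝ := fun i => if i ∈ S then 1 else 0 with hv
  have hvs : ∑ i, v i = (S.card : ℝ) := by
    simp [hv]
  have hvv : ∀ i, v i * v i = v i := by
    intro i
    simp only [hv]
    split_ifs <;> simp
  have hone : ∑ _i : V, (1 : ℝ) = n := by simp [hn]
  have hrow : ∀ i, ∑ l, Q (s i) (s l) = 1 := by
    intro i
    rw [Equiv.sum_comp s (fun y => Q (s i) y)]
    exact hQ.row _
  have hcol : ∀ l, ∑ i, Q (s i) (s l) = 1 := by
    intro l
    rw [← hrow l]
    exact Finset.sum_congr rfl fun i _ => hQ.symm _ _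
  have h0 : ∑ x, (v (s.symm x) - c) = 0 := by
    rw [← Equiv.sum_comp s]
    simp only [Equiv.symm_apply_apply]
    rw [Finset.sum_sub_distrib, hvs, Finset.sum_const, card_univ, nsmul_eq_mul]
    rw [← hcn]
    ring
  have hsm := hQ.small (fun x => v (s.symm x) - c) h0
  have e1 : ∑ x, ∑ y, (v (s.symm x) - c) * Q x y * (v (s.symm y) - c) =
      ∑ i, ∑ l, (v i - c) * Q (s i) (s l) * (v l - c) := by
    rw [← Equiv.sum_comp s]
    refine Finset.sum_congr rfl fun i _ => ?_
    rw [← Equiv.sum_comp s]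
    simp only [Equiv.symm_apply_apply]
  have e2 : ∑ x, (v (s.symm x) - c) ^ 2 = ∑ i, (v i - c) ^ 2 := by
    rw [← Equiv.sum_comp s]
    simp only [Equiv.symm_apply_apply]
  have e3 : ∑ i, (v i - c) ^ 2 = (S.card : ℝ) - c * S.card := by
    have : ∀ i, (v i - c) ^ 2 = v i - 2 * c * v i + c ^ 2 * 1 := by
      intro i
      have := hvv i
      nlinarith
    rw [Finset.sum_congr rfl fun i _ => this i, Finset.sum_add_distrib, Finset.sum_sub_distrib,
      ← Finset.mul_sum, ← Finset.mul_sum, hvs, hone]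
    have : c ^ 2 * n = c * S.card := by rw [← hcn]; ring
    rw [this]
    ring
  have e4 : ∑ i, ∑ l, (v i - c) * Q (s i) (s l) * (v l - c) =
      ∑ i, ∑ l, v i * v l * Q (s i) (s l) - c * S.card := by
    have h1 : ∀ i, ∑ l, (v i - c) * Q (s i) (s l) * (v l - c) =
        ∑ l, v i * v l * Q (s i) (s l) - c * v i - c * ∑ l, v l * Q (s i) (s l) + c ^ 2 * 1 := by
      intro i
      have : ∀ l, (v i - c) * Q (s i) (s l) * (v l - c) =
          v i * v l * Q (s i) (s l) - c * v i * Q (s i) (s l) - c * (v l * Q (s i) (s l)) +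
            c ^ 2 * Q (s i) (s l) := fun l => by ring
      rw [Finset.sum_congr rfl fun l _ => this l, Finset.sum_add_distrib, Finset.sum_sub_distrib,
        Finset.sum_sub_distrib, ← Finset.mul_sum, ← Finset.mul_sum, ← Finset.mul_sum, hrow i]
      ring
    rw [Finset.sum_congr rfl fun i _ => h1 i, Finset.sum_add_distrib, Finset.sum_sub_distrib,
      Finset.sum_sub_distrib, ← Finset.mul_sum, ← Finset.mul_sum, ← Finset.mul_sum, hvs, hone]
    have h2 : ∑ i, ∑ l, v l * Q (s i) (s l) = (S.card : ℝ) := by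
      rw [Finset.sum_comm]
      have : ∀ l, ∑ i, v l * Q (s i) (s l) = v l := by
        intro l
        rw [← Finset.mul_sum, hcol l, mul_one]
      rw [Finset.sum_congr rfl fun l _ => this l, hvs]
    have h3 : c ^ 2 * n = c * S.card := by rw [← hcn]; ring
    rw [h2, h3]
    ring
  have e5 : ∑ i, ∑ l, v i * v l * Q (s i) (s l) = ∑ i ∈ S, ∑ l ∈ S, Q (s i) (s l) := by
    rw [← Finset.sum_filter_add_sum_filter_not univ (· ∈ S)]
    have hz : ∑ i ∈ univ.filter (fun i => i ∉ S), ∑ l, v i * v l * Q (s i) (s l) = 0 := by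
      refine Finset.sum_eq_zero fun i hi => Finset.sum_eq_zero fun l _ => ?_
      have : i ∉ S := (mem_filter.1 hi).2
      simp [hv, this]
    rw [hz, add_zero]
    have hfil : univ.filter (fun i => i ∈ S) = S := by ext; simp
    rw [hfil]
    refine Finset.sum_congr rfl fun i hi => ?_
    rw [← Finset.sum_filter_add_sum_filter_not univ (· ∈ S)]
    have hz2 : ∑ l ∈ univ.filter (fun l => l ∉ S), v i * v l * Q (s i) (s l) = 0 := by
      refine Finset.sum_eq_zero fun l hl => ?_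
      have : l ∉ S := (mem_filter.1 hl).2
      simp [hv, this]
    rw [hz2, add_zero, hfil]
    refine Finset.sum_congr rfl fun l hl => ?_
    simp [hv, hi, hl]
  have e6 : ∑ i ∈ S, ∑ l ∈ Sᶜ, Q (s i) (s l) =
      (S.card : ℝ) - ∑ i ∈ S, ∑ l ∈ S, Q (s i) (s l) := by
    have h1 : ∀ i ∈ S, ∑ l ∈ Sᶜ, Q (s i) (s l) = 1 - ∑ l ∈ S, Q (s i) (s l) := by
      intro i _
      have := Finset.sum_add_sum_compl S (fun l => Q (s i) (s l))
      rw [hrow i] at this
      linarith
    rw [Finset.sum_congr rfl h1, Finset.sum_sub_distrib]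
    simp
  rw [e1, e2, e3, e4, e5] at hsm
  rw [e6]
  have : (S.card : ℝ) * (1 - c) * (1 - ε) =
      (S.card : ℝ) - (ε * ((S.card : ℝ) - c * S.card) + c * S.card) := by ring
  rw [this]
  linarith

/-- IP-C1: the one body estimate -/
theorem pure_energy {Q : V → V → ℝ} {ε : ℝ} (hQ : Smooth Q ε) (hε : 0 ≤ ε) (hε1 : ε ≤ 1)
    (S : Finset V) (f : Perm V → ℝ) (hf : f ∈ Fs S) (ho : ∀ i ∈ S, Orth f (Fs (S.erase i))) :
    (S.card : ℝ) * ((1 - (S.card : ℝ) / Fintype.card V) * (1 - ε) - ε) * nsq f ≤ En Q f := by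
  -- the energy in terms of the labels
  have hEn : En Q f = (1 / 4) * ∑ s : Perm V, ∑ i, ∑ l,
      Q (s i) (s l) * (f s - f (s * swap i l)) ^ 2 := by
    unfold En dif
    congr 1
    have h1 : ∀ s : Perm V, ∑ i, ∑ l, Q (s i) (s l) * (f s - f (s * swap i l)) ^ 2 =
        ∑ x, ∑ y, Q x y * (f s - f (swap x y * s)) ^ 2 := by
      intro s
      rw [← Equiv.sum_comp s (fun x => ∑ y, Q x y * (f s - f (swap x y * s)) ^ 2)]
      refine Finset.sum_congr rfl fun i _ => ?_
      rw [← Equiv.sum_comp s (fun y => Q (s i) y * (f s - f (swap (s i) y * s)) ^ 2)]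
      refine Finset.sum_congr rfl fun l _ => ?_
      rw [Equiv.mul_swap_eq_swap_mul]
    have h2 : ∑ s : Perm V, ∑ i, ∑ l, Q (s i) (s l) * (f s - f (s * swap i l)) ^ 2 =
        ∑ s : Perm V, ∑ x, ∑ y, Q x y * (f s - f (swap x y * s)) ^ 2 :=
      Finset.sum_congr rfl fun s _ => h1 s
    rw [h2, Finset.sum_comm (s := (univ : Finset (Perm V)))]
    refine Finset.sum_congr rfl fun x _ => ?_
    rw [Finset.sum_comm (s := (univ : Finset (Perm V)))]
    refine Finset.sum_congr rfl fun y _ => ?_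
    rw [Finset.mul_sum]
  have hcard : 0 ≤ nsq f := Finset.sum_nonneg fun s _ => sq_nonneg _
  rcases S.eq_empty_or_nonempty with hS | hS
  · subst hS
    simp only [card_empty, Nat.cast_zero, zero_mul]
    rw [hEn]
    refine mul_nonneg (by norm_num) (Finset.sum_nonneg fun s _ => Finset.sum_nonneg fun i _ =>
      Finset.sum_nonneg fun l _ => ?_)
    exact mul_nonneg (hQ.nonneg _ _) (sq_nonneg _)
  have hV : 0 < Fintype.card V := by
    obtain ⟨i, _⟩ := hS
    exact Fintype.card_pos_iff.2 ⟨i⟩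
  -- lower bound by the pairs with one label in `S`
  have hlow : ∑ s : Perm V, 2 * ∑ i ∈ S, ∑ l ∈ Sᶜ, Q (s i) (s l) * (f s - f (s * swap i l)) ^ 2 ≤
      ∑ s : Perm V, ∑ i, ∑ l, Q (s i) (s l) * (f s - f (s * swap i l)) ^ 2 := by
    refine Finset.sum_le_sum fun s _ => ?_
    set F : V → V → ℝ := fun i l => Q (s i) (s l) * (f s - f (s * swap i l)) ^ 2 with hF
    have hFn : ∀ i l, 0 ≤ F i l := fun i l => mul_nonneg (hQ.nonneg _ _) (sq_nonneg _)
    have hFs : ∀ i l, F i l = F l i := by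
      intro i l
      simp only [hF]
      rw [hQ.symm (s i) (s l), Equiv.swap_comm i l]
    have h1 : ∑ i ∈ S, ∑ l ∈ Sᶜ, F i l ≤ ∑ i ∈ S, ∑ l, F i l :=
      Finset.sum_le_sum fun i _ => Finset.sum_le_sum_of_subset_of_nonneg (subset_univ _)
        fun l _ _ => hFn i l
    have h2 : ∑ i ∈ S, ∑ l ∈ Sᶜ, F i l ≤ ∑ i ∈ Sᶜ, ∑ l, F i l := by
      rw [Finset.sum_comm]
      refine Finset.sum_le_sum fun l _ => ?_
      refine (Finset.sum_le_sum_of_subset_of_nonneg (subset_univ S) fun i _ _ => hFn i l).trans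
        (le_of_eq ?_)
      exact Finset.sum_congr rfl fun i _ => hFs i l
    have h3 := Finset.sum_add_sum_compl S (fun i => ∑ l, F i l)
    linarith
  -- expansion of the square
  have hexp : ∑ s : Perm V, 2 * ∑ i ∈ S, ∑ l ∈ Sᶜ, Q (s i) (s l) * (f s - f (s * swap i l)) ^ 2 =
      4 * (∑ s : Perm V, (∑ i ∈ S, ∑ l ∈ Sᶜ, Q (s i) (s l)) * f s ^ 2 -
        ∑ i ∈ S, ∑ l ∈ Sᶜ, ∑ s : Perm V, Q (s i) (s l) * (f s * f (s * swap i l))) := by
    have h1 : ∀ i l : V, ∑ s : Perm V, Q (s i) (s l) * (f s - f (s * swap i l)) ^ 2 =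
        2 * (∑ s : Perm V, Q (s i) (s l) * f s ^ 2 -
          ∑ s : Perm V, Q (s i) (s l) * (f s * f (s * swap i l))) := by
      intro i l
      have h2 : ∑ s : Perm V, Q (s i) (s l) * f (s * swap i l) ^ 2 =
          ∑ s : Perm V, Q (s i) (s l) * f s ^ 2 := by
        rw [← Equiv.sum_comp (Equiv.mulRight (swap i l)) (fun s => Q (s i) (s l) * f s ^ 2)]
        refine Finset.sum_congr rfl fun s _ => ?_
        simp only [Equiv.coe_mulRight, Perm.coe_mul, Function.comp_apply, swap_apply_right,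
          swap_apply_left]
        rw [hQ.symm (s l) (s i)]
      have h3 : ∀ s : Perm V, Q (s i) (s l) * (f s - f (s * swap i l)) ^ 2 =
          Q (s i) (s l) * f s ^ 2 + Q (s i) (s l) * f (s * swap i l) ^ 2 -
            2 * (Q (s i) (s l) * (f s * f (s * swap i l))) := fun s => by ring
      rw [Finset.sum_congr rfl fun s _ => h3 s, Finset.sum_sub_distrib, Finset.sum_add_distrib,
        h2, ← Finset.mul_sum]
      ring
    rw [← Finset.mul_sum, Finset.sum_comm]
    have h4 : ∀ i ∈ S, ∑ s : Perm V, ∑ l ∈ Sᶜ, Q (s i) (s l) * (f s - f (s * swap i l)) ^ 2 =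
        2 * (∑ l ∈ Sᶜ, ∑ s : Perm V, Q (s i) (s l) * f s ^ 2 -
          ∑ l ∈ Sᶜ, ∑ s : Perm V, Q (s i) (s l) * (f s * f (s * swap i l))) := by
      intro i _
      rw [Finset.sum_comm, ← Finset.sum_sub_distrib, Finset.mul_sum]
      exact Finset.sum_congr rfl fun l _ => h1 i l
    rw [Finset.sum_congr rfl h4, ← Finset.mul_sum, Finset.sum_sub_distrib]
    have h5 : ∑ i ∈ S, ∑ l ∈ Sᶜ, ∑ s : Perm V, Q (s i) (s l) * f s ^ 2 =
        ∑ s : Perm V, (∑ i ∈ S, ∑ l ∈ Sᶜ, Q (s i) (s l)) * f s ^ 2 := by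
      have h6 : ∀ s : Perm V, (∑ i ∈ S, ∑ l ∈ Sᶜ, Q (s i) (s l)) * f s ^ 2 =
          ∑ i ∈ S, ∑ l ∈ Sᶜ, Q (s i) (s l) * f s ^ 2 := by
        intro s
        rw [Finset.sum_mul]
        exact Finset.sum_congr rfl fun i _ => Finset.sum_mul _ _ _
      have h7 : ∑ s : Perm V, (∑ i ∈ S, ∑ l ∈ Sᶜ, Q (s i) (s l)) * f s ^ 2 =
          ∑ s : Perm V, ∑ i ∈ S, ∑ l ∈ Sᶜ, Q (s i) (s l) * f s ^ 2 :=
        Finset.sum_congr rfl fun s _ => h6 s
      rw [h7, Finset.sum_comm (s := (univ : Finset (Perm V)))]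
      refine Finset.sum_congr rfl fun i _ => ?_
      rw [Finset.sum_comm]
    rw [h5]
    ring
  have hoff : ∑ i ∈ S, ∑ l ∈ Sᶜ, ∑ s : Perm V, Q (s i) (s l) * (f s * f (s * swap i l)) ≤
      (S.card : ℝ) * (ε * nsq f) := by
    have h8 : ∑ i ∈ S, ∑ l ∈ Sᶜ, ∑ s : Perm V, Q (s i) (s l) * (f s * f (s * swap i l)) ≤
        ∑ _i ∈ S, ε * nsq f :=
      Finset.sum_le_sum fun i hi => one_body hQ hf hi (ho i hi)
    rw [Finset.sum_const, nsmul_eq_mul] at h8
    exact h8
  have hdia : (S.card : ℝ) * (1 - (S.card : ℝ) / Fintype.card V) * (1 - ε) * nsq f ≤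
      ∑ s : Perm V, (∑ i ∈ S, ∑ l ∈ Sᶜ, Q (s i) (s l)) * f s ^ 2 := by
    unfold nsq
    rw [Finset.mul_sum]
    exact Finset.sum_le_sum fun s _ => mul_le_mul_of_nonneg_right (diag hQ hV S s) (sq_nonneg _)
  rw [hEn]
  rw [hexp] at hlow
  have hfin : (S.card : ℝ) * ((1 - (S.card : ℝ) / Fintype.card V) * (1 - ε) - ε) * nsq f =
      (S.card : ℝ) * (1 - (S.card : ℝ) / Fintype.card V) * (1 - ε) * nsq f -
        (S.card : ℝ) * (ε * nsq f) := by ring
  rw [hfin]
  linarith

end Pool.Agent.Helper74.IP
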